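import Pool.Agent.helper52.FS.SpecD

/-!
# Project FS (MP_07c750_an), row UDP
-/

open scoped MatrixGroups ContDiff Topology UpperHalfPlane ComplexConjugate
open UpperHalfPlane MeasureTheory Filter Set

set_option autoImplicit false

namespace Pool.Agent.FS

open Pool.Agent.RS
open Pool.Agent.MS (bq BB BA SF pf)
open Pool.Agent.EN (XG MG mkX mkM fl pr)

noncomputable section

theorem UDP_mul (hXFL : EN.XFL_stmt) (Γ : Subgroup SL(2, ℝ)) {g g' : SL(2, ℝ)} (h : mkX Γ g = mkX Γ g') (w : SL(2, ℝ)) :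
    mkX Γ (g * w) = mkX Γ (g' * w) := by
  obtain ⟨-, -, -, -, -, -, -, -, -, -, hiff, -⟩ := hXFL Γ
  obtain ⟨γ, hγ⟩ := (hiff g g').1 h
  exact (hiff _ _).2 ⟨γ, by rw [← hγ, mul_assoc]⟩

theorem UDP_open (hXFL : EN.XFL_stmt) (Γ : Subgroup SL(2, ℝ)) {O : Set (XG Γ)} (hO : IsOpen O) (w : SL(2, ℝ)) :
    IsOpen (mkX Γ '' {g : SL(2, ℝ) | mkX Γ (g * w) ∈ O}) := by
  obtain ⟨-, -, hmk, hopen, -⟩ := hXFL Γ
  refine hopen _ ?_
  exact hO.preimage (hmk.comp (continuous_id.mul continuous_const))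

theorem UDP_lim (hXFL : EN.XFL_stmt) (hXTX : EN.XTX_stmt) (Γ : Subgroup SL(2, ℝ)) (hΓ : QU.SurfaceGroup Γ)
    {O : Set (XG Γ)} (hO : IsOpen O) (G : ℕ → SL(2, ℝ)) :
    ∃ h : SL(2, ℝ), ∀ w : SL(2, ℝ), mkX Γ (h * w) ∈ O → ∃ᶠ k in atTop, mkX Γ (G k * w) ∈ O := by
  obtain ⟨hcomp, -, -⟩ := hXTX Γ hΓ
  obtain ⟨x, hx⟩ := exists_clusterPt_of_compactSpace (Filter.map (fun k => mkX Γ (G k)) atTop)
  obtain ⟨-, -, hmk, hopen, hsurj, -⟩ := hXFL Γ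
  obtain ⟨h, rfl⟩ := hsurj x
  refine ⟨h, fun w hw => ?_⟩
  have h1 : mkX Γ '' {g : SL(2, ℝ) | mkX Γ (g * w) ∈ O} ∈ 𝓝 (mkX Γ h) :=
    (UDP_open hXFL Γ hO w).mem_nhds ⟨h, hw, rfl⟩
  have h2 := (mapClusterPt_iff_frequently.1 hx) _ h1
  refine h2.mono ?_
  rintro k ⟨g, hg, hgk⟩
  have h3 := UDP_mul hXFL Γ hgk w
  have h4 : mkX Γ (g * w) ∈ O := hg
  rwa [h3] at h4

theorem UDP_A (hPMN : PMN_stmt) (hGLC : GLC_stmt) (hXFL : EN.XFL_stmt) (hXTX : EN.XTX_stmt)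
    (Γ : Subgroup SL(2, ℝ)) (O : Set (XG Γ)) (hΓ : QU.SurfaceGroup Γ) (hO : IsOpen O) (hne : O.Nonempty) :
    ∃ T : ℝ, 0 < T ∧ ∀ g : SL(2, ℝ), ∃ u ∈ Icc (0 : ℝ) 1, ∃ t ∈ Icc 0 T, mkX Γ (g * lM u * aM t) ∈ O := by
  obtain ⟨-, -, -, -, -, -, -, -, -, -, hA, -, hL, -, -, -, -, -, hLA, -⟩ := hGLC
  by_contra hcon
  push Not at hcon
  have hcon' : ∀ k : ℕ, ∃ g : SL(2, ℝ), ∀ u ∈ Icc (0 : ℝ) 1, ∀ t ∈ Icc (0 : ℝ) ((k : ℝ) + 1),
      mkX Γ (g * lM u * aM t) ∉ O := fun k => hcon ((k : ℝ) + 1) (by positivity)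
  choose G hG using hcon'
  obtain ⟨g, hg⟩ := UDP_lim hXFL hXTX Γ hΓ hO G
  have hg' : ∀ u ∈ Icc (0 : ℝ) 1, ∀ t : ℝ, 0 ≤ t → mkX Γ (g * lM u * aM t) ∉ O := by
    intro u hu t ht hmem
    rw [mul_assoc] at hmem
    have h1 := hg _ hmem
    obtain ⟨N, hN⟩ := exists_nat_ge t
    obtain ⟨k, hk, hkO⟩ := (frequently_atTop.1 h1) N
    have h2 : (N : ℝ) ≤ k := by exact_mod_cast hk
    refine hG k u hu t ⟨ht, by linarith⟩ ?_
    rw [mul_assoc]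
    exact hkO
  obtain ⟨h, hh⟩ := UDP_lim hXFL hXTX Γ hΓ hO (fun k : ℕ => g * lM (1 / 2) * aM k)
  have hh' : ∀ s u : ℝ, mkX Γ (h * aM s * lM u) ∉ O := by
    intro s u hmem
    rw [mul_assoc] at hmem
    have h1 := hh _ hmem
    obtain ⟨N, hN⟩ := exists_nat_ge (-s + 2 * |u|)
    obtain ⟨k, hk, hkO⟩ := (frequently_atTop.1 h1) N
    have h2 : (N : ℝ) ≤ k := by exact_mod_cast hk
    have hu0 := abs_nonneg u
    have h3 : 2 * |u| ≤ (k : ℝ) + s := by linarith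
    have h4 : |Real.exp (-((k : ℝ) + s)) * u| ≤ 1 / 2 := by
      rw [abs_mul, abs_of_pos (Real.exp_pos _), Real.exp_neg, inv_mul_eq_div, div_le_iff₀ (Real.exp_pos _)]
      have h5 := Real.add_one_le_exp ((k : ℝ) + s)
      linarith
    have e : g * lM (1 / 2) * aM k * (aM s * lM u) =
        g * lM (1 / 2 + Real.exp (-((k : ℝ) + s)) * u) * aM ((k : ℝ) + s) := by
      have e1 : aM ((k : ℝ) + s) * lM u = lM (Real.exp (-((k : ℝ) + s)) * u) * aM ((k : ℝ) + s) := by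
        rw [hLA, ← mul_assoc (Real.exp _), ← Real.exp_add, add_neg_cancel, Real.exp_zero, one_mul]
      calc g * lM (1 / 2) * aM k * (aM s * lM u) = g * lM (1 / 2) * ((aM k * aM s) * lM u) := by
            simp only [mul_assoc]
        _ = g * lM (1 / 2) * (lM (Real.exp (-((k : ℝ) + s)) * u) * aM ((k : ℝ) + s)) := by
            rw [← hA, e1]
        _ = g * (lM (1 / 2) * lM (Real.exp (-((k : ℝ) + s)) * u)) * aM ((k : ℝ) + s) := by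
            simp only [mul_assoc]
        _ = _ := by rw [← hL]
    have h6 : mkX Γ (g * lM (1 / 2) * aM k * (aM s * lM u)) ∈ O := hkO
    rw [e] at h6
    have h7 := abs_le.1 h4
    exact hg' _ ⟨by linarith, by linarith⟩ _ (by linarith) h6
  have hZ : {x : XG Γ | ∀ g : SL(2, ℝ), mkX Γ g = x → ∀ s u : ℝ, mkX Γ (g * aM s * lM u) ∉ O} = univ := by
    refine hPMN Γ _ hΓ ?_ ?_ ?_
    · rw [← isOpen_compl_iff]
      have e : {x : XG Γ | ∀ g : SL(2, ℝ), mkX Γ g = x → ∀ s u : ℝ, mkX Γ (g * aM s * lM u) ∉ O}ᶜ =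
          ⋃ s : ℝ, ⋃ u : ℝ, mkX Γ '' {g : SL(2, ℝ) | mkX Γ (g * (aM s * lM u)) ∈ O} := by
        ext x
        simp only [mem_compl_iff, mem_setOf_eq, mem_iUnion, mem_image]
        push Not
        constructor
        · rintro ⟨g, hgx, s, u, hm⟩
          exact ⟨s, u, g, by rw [← mul_assoc]; exact hm, hgx⟩
        · rintro ⟨s, u, g, hm, hgx⟩
          exact ⟨g, hgx, s, u, by rw [mul_assoc]; exact hm⟩
      rw [e]
      exact isOpen_iUnion fun s => isOpen_iUnion fun u => UDP_open hXFL Γ hO _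
    · refine ⟨mkX Γ h, ?_⟩
      intro g' hg'' s u hm
      rw [mul_assoc, UDP_mul hXFL Γ hg'' (aM s * lM u), ← mul_assoc] at hm
      exact hh' s u hm
    · intro g0 s u hg0 g1 hg1 s' u' hm
      rw [mul_assoc, UDP_mul hXFL Γ hg1 (aM s' * lM u')] at hm
      have e : g0 * aM s * lM u * (aM s' * lM u') = g0 * aM (s + s') * lM (Real.exp s' * u + u') := by
        calc g0 * aM s * lM u * (aM s' * lM u') = g0 * aM s * (lM u * aM s') * lM u' := by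
              simp only [mul_assoc]
          _ = g0 * (aM s * aM s') * (lM (Real.exp s' * u) * lM u') := by
              rw [hLA]; simp only [mul_assoc]
          _ = _ := by rw [← hA, ← hL]
      rw [e] at hm
      exact hg0 g0 rfl _ _ hm
  obtain ⟨o, ho⟩ := hne
  obtain ⟨-, -, -, -, hsurj, -⟩ := hXFL Γ
  obtain ⟨g0, rfl⟩ := hsurj o
  have h0 : mkX Γ g0 ∈ {x : XG Γ | ∀ g : SL(2, ℝ), mkX Γ g = x → ∀ s u : ℝ, mkX Γ (g * aM s * lM u) ∉ O} := by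
    rw [hZ]; exact mem_univ _
  have hA0 : aM 0 = 1 := by
    have h1 := hA 0 0
    rw [add_zero] at h1
    exact (mul_eq_left.1 h1.symm)
  have hL0 : lM 0 = 1 := by
    have h1 := hL 0 0
    rw [add_zero] at h1
    exact (mul_eq_left.1 h1.symm)
  refine h0 g0 rfl 0 0 ?_
  rw [hA0, hL0, mul_one, mul_one]
  exact ho

theorem UDP_nl (z : ℝ) : nM z * kM (Real.pi / 2) = kM (Real.pi / 2) * lM (-z) := by
  ext i j
  fin_cases i <;> fin_cases j <;> simp [nM, kM, lM, Matrix.mul_apply, Fin.sum_univ_two]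

theorem UDP_proof (hPMN : PMN_stmt) (hGLC : GLC_stmt) (hXFL : EN.XFL_stmt) (hXTX : EN.XTX_stmt) : UDP_stmt := by
  intro Γ O hΓ hO hne
  obtain ⟨T1, hT1, h1⟩ := UDP_A hPMN hGLC hXFL hXTX Γ O hΓ hO hne
  have hO' : IsOpen (mkX Γ '' {g : SL(2, ℝ) | mkX Γ (g * (kM (Real.pi / 2))⁻¹) ∈ O}) := UDP_open hXFL Γ hO _
  have hne' : (mkX Γ '' {g : SL(2, ℝ) | mkX Γ (g * (kM (Real.pi / 2))⁻¹) ∈ O}).Nonempty := by
    obtain ⟨o, ho⟩ := hne
    obtain ⟨-, -, -, -, hsurj, -⟩ := hXFL Γ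
    obtain ⟨g0, rfl⟩ := hsurj o
    refine ⟨_, g0 * kM (Real.pi / 2), ?_, rfl⟩
    rw [mem_setOf_eq, mul_inv_cancel_right]
    exact ho
  obtain ⟨T2, hT2, h2⟩ := UDP_A hPMN hGLC hXFL hXTX Γ _ hΓ hO' hne'
  refine ⟨max T1 T2, lt_max_of_lt_left hT1, fun g => ⟨?_, ?_⟩⟩
  · obtain ⟨u, hu, t, ht, hm⟩ := h1 g
    exact ⟨u, hu, t, ⟨ht.1, ht.2.trans (le_max_left _ _)⟩, hm⟩
  · obtain ⟨u, hu, t, ht, hm⟩ := h2 (g * kM (Real.pi / 2) * lM (-1))
    refine ⟨1 - u, ⟨by linarith [hu.2], by linarith [hu.1]⟩, t, ⟨ht.1, ht.2.trans (le_max_right _ _)⟩, ?_⟩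
    obtain ⟨g', hg', hgg⟩ := hm
    have h3 := UDP_mul hXFL Γ hgg (kM (Real.pi / 2))⁻¹
    have h4 : mkX Γ (g' * (kM (Real.pi / 2))⁻¹) ∈ O := hg'
    rw [h3] at h4
    obtain ⟨-, -, -, -, -, -, -, -, -, -, hA, -, hL, -, -, -, -, -, hLA, hKA⟩ := hGLC
    have e : g * kM (Real.pi / 2) * lM (-1) * lM u * aM t * (kM (Real.pi / 2))⁻¹ = g * nM (1 - u) * aM (-t) := by
      have e1 : lM (-1) * lM u = lM (-(1 - u)) := by
        rw [← hL]; congr 1; ring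
      calc g * kM (Real.pi / 2) * lM (-1) * lM u * aM t * (kM (Real.pi / 2))⁻¹
          = g * kM (Real.pi / 2) * (lM (-1) * lM u) * aM t * (kM (Real.pi / 2))⁻¹ := by simp only [mul_assoc]
        _ = g * (kM (Real.pi / 2) * lM (-(1 - u))) * aM t * (kM (Real.pi / 2))⁻¹ := by
            rw [e1]; simp only [mul_assoc]
        _ = g * nM (1 - u) * (kM (Real.pi / 2) * aM t) * (kM (Real.pi / 2))⁻¹ := by
            rw [← UDP_nl]; simp only [mul_assoc]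
        _ = _ := by rw [hKA]; simp only [mul_assoc, mul_inv_cancel, mul_one]
    rw [e] at h4
    exact h4

end

end Pool.Agent.FS
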