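import Pool.Agent.helper87.FS.Spec

set_option autoImplicit false

namespace Pool.Agent.FS

open Polynomial Matrix Pool.Agent.helper42.NS

theorem CMK_append {t ka kb : ℕ} (B : Fin (ka + kb) → Fin t → Bool) :
    Fin.append (fst' ka kb B) (fun i => B (Fin.natAdd ka i)) = B := by
  funext i
  refine Fin.addCases (fun j => ?_) (fun j => ?_) i
  · rw [Fin.append_left]; rfl
  · rw [Fin.append_right]

theorem CMK (h1 : CXF_stmt) : CMK_stmt := by
  intro t ka kb c d Ψ Φ hyp
  classical
  have hSf : {HB : Matrix (Fin t) (Fin t) ℤ × (Fin ka → Fin t → Bool) | IsGr HB.1 ∧ Ψ HB.1 HB.2}.Finite :=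
    (h1 t ka).1.subset (fun x hx => hx.1)
  have hTf : {HB : Matrix (Fin t) (Fin t) ℤ × (Fin (ka + kb) → Fin t → Bool) |
      IsGr HB.1 ∧ Ψ HB.1 (fst' ka kb HB.2) ∧ Φ HB.1 HB.2}.Finite :=
    (h1 t (ka + kb)).1.subset (fun x hx => hx.1)
  rw [Set.ncard_eq_toFinset_card _ hTf, Set.ncard_eq_toFinset_card _ hSf]
  have hmaps : ∀ x ∈ hTf.toFinset, ((x.1, fst' ka kb x.2) :
      Matrix (Fin t) (Fin t) ℤ × (Fin ka → Fin t → Bool)) ∈ hSf.toFinset := by
    intro x hx
    rw [Set.Finite.mem_toFinset] at hx ⊢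
    exact ⟨hx.1, hx.2.1⟩
  rw [Finset.card_eq_sum_card_fiberwise (f := fun x : Matrix (Fin t) (Fin t) ℤ × (Fin (ka + kb) → Fin t → Bool) =>
    ((x.1, fst' ka kb x.2) : Matrix (Fin t) (Fin t) ℤ × (Fin ka → Fin t → Bool))) hmaps, Finset.sum_mul]
  calc ∑ s ∈ hSf.toFinset, (Finset.filter (fun x => ((x.1, fst' ka kb x.2) :
        Matrix (Fin t) (Fin t) ℤ × (Fin ka → Fin t → Bool)) = s) hTf.toFinset).card * c
      ≤ ∑ s ∈ hSf.toFinset, d := by
        refine Finset.sum_le_sum fun s hs => ?_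
        rw [Set.Finite.mem_toFinset] at hs
        refine le_trans (Nat.mul_le_mul_right c ?_) (hyp s.1 s.2 hs.1 hs.2)
        rw [← Set.ncard_coe_finset]
        refine Set.ncard_le_ncard_of_injOn (fun x => fun i => x.2 (Fin.natAdd ka i)) ?_ ?_ (Set.toFinite _)
        · intro x hx
          rw [Finset.mem_coe, Finset.mem_filter, Set.Finite.mem_toFinset] at hx
          obtain ⟨hx1, hx2⟩ := hx
          subst hx2
          change Φ x.1 (Fin.append (fst' ka kb x.2) (fun i => x.2 (Fin.natAdd ka i)))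
          rw [CMK_append]
          exact hx1.2.2
        · intro x hx y hy hxy
          rw [Finset.mem_coe, Finset.mem_filter] at hx hy
          have e : ((x.1, fst' ka kb x.2) : Matrix (Fin t) (Fin t) ℤ × (Fin ka → Fin t → Bool)) =
              (y.1, fst' ka kb y.2) := hx.2.trans hy.2.symm
          have e1 : x.1 = y.1 := (Prod.mk.injEq _ _ _ _ ▸ e).1
          have e2 : fst' ka kb x.2 = fst' ka kb y.2 := (Prod.mk.injEq _ _ _ _ ▸ e).2
          refine Prod.ext e1 ?_
          rw [← CMK_append x.2, ← CMK_append y.2, e2]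
          exact congrArg (Fin.append (fst' ka kb y.2)) hxy
    _ = hSf.toFinset.card * d := by rw [Finset.sum_const, smul_eq_mul]

end Pool.Agent.FS
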