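import Pool.Agent.helper78.FS.Spec

/-!
# MP_55808c_co, project FS: row GDN (the grid is dense)
-/

set_option autoImplicit false

namespace Pool.Agent.helper78.FS

open Finset Real
open Classical

noncomputable section

theorem GDN_polar (a b R : ℝ) (hR : 0 ≤ R) (h : a ^ 2 + b ^ 2 = R ^ 2) :
    ∃ φ : ℝ, 0 ≤ φ ∧ φ < 2 * π ∧ a = R * cos φ ∧ b = R * sin φ := by
  have hn : ‖(⟨a, b⟩ : ℂ)‖ = R := by
    rw [Complex.norm_def, Complex.normSq_mk, ← Real.sqrt_sq hR]
    congr 1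
    rw [← h]
    ring
  have h1 : R * cos (Complex.arg ⟨a, b⟩) = a := by
    rw [← hn]
    exact Complex.norm_mul_cos_arg _
  have h2 : R * sin (Complex.arg ⟨a, b⟩) = b := by
    rw [← hn]
    exact Complex.norm_mul_sin_arg _
  have h3 : -π < Complex.arg ⟨a, b⟩ := Complex.neg_pi_lt_arg _
  have h4 : Complex.arg ⟨a, b⟩ ≤ π := Complex.arg_le_pi _
  have hpi := Real.pi_pos
  by_cases h5 : 0 ≤ Complex.arg ⟨a, b⟩
  · exact ⟨_, h5, by linarith, h1.symm, h2.symm⟩
  · rw [not_le] at h5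
    refine ⟨Complex.arg ⟨a, b⟩ + 2 * π, by linarith, by linarith, ?_, ?_⟩
    · rw [Real.cos_add_two_pi, h1]
    · rw [Real.sin_add_two_pi, h2]

theorem GDN : GDN_stmt := by
  intro t r n _ hr x hx
  have hpi := Real.pi_pos
  have hn0 : n ≠ 0 := NeZero.ne n
  have hn : (0 : ℝ) < n := by exact_mod_cast Nat.pos_of_ne_zero hn0
  set a : ℝ := cos t * x 0 - sin t * x 2 with ha
  set b : ℝ := x 1 with hb
  set c : ℝ := sin t * x 0 + cos t * x 2 with hc
  have hsc := Real.sin_sq_add_cos_sq t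
  have hx0 : x 0 = cos t * a + sin t * c := by
    rw [ha, hc]
    linear_combination (-(x 0)) * hsc
  have hx2 : x 2 = -sin t * a + cos t * c := by
    rw [ha, hc]
    linear_combination (-(x 2)) * hsc
  have hnorm : x 0 ^ 2 + x 1 ^ 2 + x 2 ^ 2 = r ^ 2 := by
    have h1 := EuclideanSpace.norm_sq_eq x
    rw [hx] at h1
    simp only [Fin.sum_univ_three, Real.norm_eq_abs, sq_abs] at h1
    exact h1.symm
  have habc : a ^ 2 + b ^ 2 + c ^ 2 = r ^ 2 := by
    rw [← hnorm, ha, hb, hc]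
    linear_combination (x 0 ^ 2 + x 2 ^ 2) * hsc
  have hcr : -1 ≤ c / r ∧ c / r ≤ 1 := by
    have h1 : c ^ 2 ≤ r ^ 2 := by nlinarith [sq_nonneg a, sq_nonneg b]
    have h2 : |c| ≤ r := by
      have := Real.sqrt_le_sqrt h1
      rwa [Real.sqrt_sq_eq_abs, Real.sqrt_sq hr.le] at this
    have h3 := abs_le.1 h2
    constructor
    · rw [le_div_iff₀ hr]
      linarith
    · rw [div_le_iff₀ hr]
      linarith
  set θ : ℝ := Real.arccos (c / r) with hθ
  have hθ0 : 0 ≤ θ := Real.arccos_nonneg _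
  have hθ1 : θ ≤ π := Real.arccos_le_pi _
  have hcθ : c = r * cos θ := by
    rw [hθ, Real.cos_arccos hcr.1 hcr.2]
    field_simp
  have hsθ : 0 ≤ sin θ := Real.sin_nonneg_of_nonneg_of_le_pi hθ0 hθ1
  obtain ⟨φ, hφ0, hφ1, haφ, hbφ⟩ := GDN_polar a b (r * sin θ) (mul_nonneg hr.le hsθ) (by
    have h1 := Real.sin_sq_add_cos_sq θ
    have h2 : c ^ 2 = r ^ 2 * cos θ ^ 2 := by
      rw [hcθ]
      ring
    linear_combination habc - h2 + (-(r ^ 2)) * h1)
  -- the indices
  have hπn : 0 < π / n := by positivity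
  have hj1 : 0 ≤ θ * n / π := by positivity
  have hi1 : 0 ≤ φ * n / π := by positivity
  set j : ℕ := ⌊θ * n / π⌋₊ with hj
  set k : ℕ := ⌊φ * n / π⌋₊ with hk
  have hjn : j ≤ n := by
    have h1 : θ * n / π ≤ n := by
      rw [div_le_iff₀ hpi]
      nlinarith
    have h2 : j ≤ ⌊(n : ℝ)⌋₊ := Nat.floor_le_floor h1
    rwa [Nat.floor_natCast] at h2
  have hkn : k < 2 * n := by
    have h1 : φ * n / π < (2 * n : ℕ) := by
      rw [div_lt_iff₀ hpi]
      push_cast
      nlinarith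
    exact (Nat.floor_lt hi1).2 h1
  have hja : (j : ℝ) ≤ θ * n / π := Nat.floor_le hj1
  have hjb : θ * n / π < j + 1 := Nat.lt_floor_add_one _
  have hka : (k : ℝ) ≤ φ * n / π := Nat.floor_le hi1
  have hkb : φ * n / π < k + 1 := Nat.lt_floor_add_one _
  have hval : ((k : ℕ) : ZMod (2 * n)).val = k := ZMod.val_natCast_of_lt hkn
  refine ⟨((k : ℕ) : ZMod (2 * n)), j, hjn, ?_⟩
  set θ' : ℝ := j * π / n with hθ'
  set φ' : ℝ := ((k : ℝ) + 1 / 2) * π / n with hφ'
  have hdθ : |θ - θ'| ≤ π / n := by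
    have h1 : θ = (θ * n / π) * (π / n) := by field_simp
    have h2 : θ' = j * (π / n) := by rw [hθ']; ring
    rw [abs_le]
    constructor
    · rw [h2]
      have := mul_le_mul_of_nonneg_right hja hπn.le
      rw [← h1] at this
      linarith
    · rw [h2]
      have := mul_le_mul_of_nonneg_right hjb.le hπn.le
      rw [← h1] at this
      linarith
  have hdφ : |φ - φ'| ≤ π / n := by
    have h1 : φ = (φ * n / π) * (π / n) := by field_simp
    have h2 : φ' = (k + 1 / 2) * (π / n) := by rw [hφ']; ring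
    rw [abs_le]
    constructor
    · rw [h2]
      have := mul_le_mul_of_nonneg_right hka hπn.le
      rw [← h1] at this
      linarith
    · rw [h2]
      have := mul_le_mul_of_nonneg_right hkb.le hπn.le
      rw [← h1] at this
      linarith
  have hdθ2 : (θ - θ') ^ 2 ≤ (π / n) ^ 2 := sq_le_sq' (by linarith [(abs_le.1 hdθ).1]) (abs_le.1 hdθ).2
  have hdφ2 : (φ - φ') ^ 2 ≤ (π / n) ^ 2 := sq_le_sq' (by linarith [(abs_le.1 hdφ).1]) (abs_le.1 hdφ).2
  -- the distance
  have hd : dist x (gr t r n ((k : ℕ) : ZMod (2 * n)) j) ^ 2 =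
      r ^ 2 * ((2 - 2 * cos (θ - θ')) + 2 * (sin θ * sin θ') * (1 - cos (φ - φ'))) := by
    rw [EuclideanSpace.dist_eq, Real.sq_sqrt (Finset.sum_nonneg fun i _ => sq_nonneg _)]
    simp only [Fin.sum_univ_three, Real.dist_eq, sq_abs]
    have g0 : (gr t r n ((k : ℕ) : ZMod (2 * n)) j) 0 = cos t * (r * sin θ' * cos φ') + sin t * (r * cos θ') := by
      simp only [gr, hval]
      rfl
    have g1 : (gr t r n ((k : ℕ) : ZMod (2 * n)) j) 1 = r * sin θ' * sin φ' := by
      simp only [gr, hval]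
      rfl
    have g2 : (gr t r n ((k : ℕ) : ZMod (2 * n)) j) 2 = -sin t * (r * sin θ' * cos φ') + cos t * (r * cos θ') := by
      simp only [gr, hval]
      rfl
    rw [g0, g1, g2, ← hb, hx0, hx2, hbφ]
    have e1 : (cos t * a + sin t * c - (cos t * (r * sin θ' * cos φ') + sin t * (r * cos θ'))) ^ 2 +
        (r * sin θ * sin φ - r * sin θ' * sin φ') ^ 2 +
        (-sin t * a + cos t * c - (-sin t * (r * sin θ' * cos φ') + cos t * (r * cos θ'))) ^ 2 =
        (a - r * sin θ' * cos φ') ^ 2 + (r * sin θ * sin φ - r * sin θ' * sin φ') ^ 2 + (c - r * cos θ') ^ 2 := by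
      linear_combination ((a - r * sin θ' * cos φ') ^ 2 + (c - r * cos θ') ^ 2) * hsc
    rw [e1, haφ, hcθ, Real.cos_sub, Real.cos_sub]
    have s1 := Real.sin_sq_add_cos_sq θ
    have s2 := Real.sin_sq_add_cos_sq θ'
    have s3 := Real.sin_sq_add_cos_sq φ
    have s4 := Real.sin_sq_add_cos_sq φ'
    linear_combination r ^ 2 * s1 + r ^ 2 * s2 + r ^ 2 * sin θ ^ 2 * s3 + r ^ 2 * sin θ' ^ 2 * s4
  have hb1 : 2 - 2 * cos (θ - θ') ≤ (π / n) ^ 2 := by
    have := Real.one_sub_sq_div_two_le_cos (x := θ - θ')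
    linarith
  have hb2 : 2 * (sin θ * sin θ') * (1 - cos (φ - φ')) ≤ (π / n) ^ 2 := by
    have h1 := Real.one_sub_sq_div_two_le_cos (x := φ - φ')
    have h2 : sin θ * sin θ' ≤ 1 := by
      have h3 : sin θ ≤ 1 := Real.sin_le_one _
      have h4 : sin θ' ≤ 1 := Real.sin_le_one _
      nlinarith
    have h5 : 0 ≤ 1 - cos (φ - φ') := by
      have := Real.cos_le_one (φ - φ')
      linarith
    calc 2 * (sin θ * sin θ') * (1 - cos (φ - φ')) ≤ 2 * 1 * (1 - cos (φ - φ')) :=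
          mul_le_mul_of_nonneg_right (by linarith) h5
      _ ≤ (π / n) ^ 2 := by linarith
  have hfin : dist x (gr t r n ((k : ℕ) : ZMod (2 * n)) j) ^ 2 ≤ (2 * r * π / n) ^ 2 := by
    rw [hd]
    have h0 : 0 ≤ (π / n) ^ 2 := sq_nonneg _
    have h1 : (2 * r * π / n) ^ 2 = r ^ 2 * (4 * (π / n) ^ 2) := by ring
    rw [h1]
    exact mul_le_mul_of_nonneg_left (by linarith) (sq_nonneg _)
  exact (sq_le_sq₀ dist_nonneg (by positivity)).1 hfin

end

end Pool.Agent.helper78.FS
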